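import Mathlib

set_option autoImplicit false

/-!
Arithmetic circuits (division-free straight-line programs) and the set `ACIT`.
-/

namespace Pool.Agent.Helper78_ACIT

/-- The gates of an arithmetic circuit: the constants `0` and `1`, a variable `x_j`, and sum,
difference and product of two gates given by their positions in the gate list. -/
inductive Gate where
  | zero : Gate
  | one : Gate
  | var (j : ℕ) : Gate
  | add (a b : ℕ) : Gate
  | sub (a b : ℕ) : Gate
  | mul (a b : ℕ) : Gate
deriving DecidableEq

/-- The value of a gate, given the list `vals` of the values of the earlier gates and the values `x`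
of the variables. -/
def Gate.value {A : Type} [CommRing A] (x : ℕ → A) (vals : List A) : Gate → A
  | .zero => 0
  | .one => 1
  | .var j => x j
  | .add a b => vals.getD a 0 + vals.getD b 0
  | .sub a b => vals.getD a 0 - vals.getD b 0
  | .mul a b => vals.getD a 0 * vals.getD b 0

/-- The list of the values of all gates, in order. -/
def values {A : Type} [CommRing A] (x : ℕ → A) (C : List Gate) : List A :=
  C.foldl (fun vals g => vals ++ [g.value x vals]) []

/-- The value of the last gate. -/
def out {A : Type} [CommRing A] (x : ℕ → A) (C : List Gate) : A :=
  (values x C).getLastD 0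

/-- All references of the gate at position `i` are to earlier gates. -/
def Gate.RefsBelow (i : ℕ) : Gate → Prop
  | .zero => True
  | .one => True
  | .var _ => True
  | .add a b => a < i ∧ b < i
  | .sub a b => a < i ∧ b < i
  | .mul a b => a < i ∧ b < i

/-- `C` is a well-formed nonempty circuit. -/
def WellFormed (C : List Gate) : Prop :=
  C ≠ [] ∧ ∀ (i : ℕ) (g : Gate), C[i]? = some g → g.RefsBelow i

/-- The polynomial over `ℤ` computed by the circuit. -/
noncomputable def poly (C : List Gate) : MvPolynomial ℕ ℤ := out MvPolynomial.X C

/-- The set of well-formed nonempty circuits whose output polynomial is zero. -/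
def ACIT : Set (List Gate) := {C | WellFormed C ∧ poly C = 0}

theorem value_map {A B : Type} [CommRing A] [CommRing B] (φ : A →+* B) (x : ℕ → A)
    (vals : List A) (g : Gate) :
    φ (g.value x vals) = g.value (fun j => φ (x j)) (vals.map φ) := by
  have h : ∀ a, φ (vals.getD a 0) = (vals.map φ).getD a 0 := by
    intro a
    rw [List.getD_eq_getElem?_getD, List.getD_eq_getElem?_getD, List.getElem?_map]
    cases vals[a]? <;> simp
  cases g <;> simp only [Gate.value, map_zero, map_one, map_add, map_sub, map_mul, h]

theorem values_map {A B : Type} [CommRing A] [CommRing B] (φ : A →+* B) (x : ℕ → A)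
    (C : List Gate) : (values x C).map φ = values (fun j => φ (x j)) C := by
  have key : ∀ (C : List Gate) (acc : List A),
      (C.foldl (fun vals g => vals ++ [g.value x vals]) acc).map φ =
      C.foldl (fun vals g => vals ++ [g.value (fun j => φ (x j)) vals]) (acc.map φ) := by
    intro C
    induction C with
    | nil => intro acc; rfl
    | cons g C ih =>
      intro acc
      simp only [List.foldl_cons]
      rw [ih]
      congr 1
      rw [List.map_append, List.map_cons, List.map_nil, value_map]
  exact key C []

theorem out_map {A B : Type} [CommRing A] [CommRing B] (φ : A →+* B) (x : ℕ → A)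
    (C : List Gate) : φ (out x C) = out (fun j => φ (x j)) C := by
  unfold out
  rw [← values_map, List.getLastD_eq_getLast?, List.getLastD_eq_getLast?, List.getLast?_map]
  cases (values x C).getLast? <;> simp

/-- Evaluating the circuit at a point is evaluating its polynomial. -/
theorem out_eq_eval {A : Type} [CommRing A] (x : ℕ → A) (C : List Gate) :
    out x C = MvPolynomial.eval₂ (Int.castRingHom A) x (poly C) := by
  have := out_map (MvPolynomial.eval₂Hom (Int.castRingHom A) x) MvPolynomial.X C
  simp only [MvPolynomial.coe_eval₂Hom, MvPolynomial.eval₂_X] at this
  exact this.symm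

end Pool.Agent.Helper78_ACIT
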