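import Mathlib

set_option autoImplicit false

/-!
Small primes not dividing a given number, and digit expansions.
-/

namespace Pool.Agent.Helper78_ACIT

/-- A nonzero number below `2 ^ L` has a prime non-divisor of size at most `64 (L + 1) ^ 2`. -/
theorem exists_prime_not_dvd (N L : ℕ) (hN : N ≠ 0) (hL : N ≤ 2 ^ L) :
    ∃ r, r.Prime ∧ r ≤ 64 * (L + 1) ^ 2 ∧ ¬ r ∣ N := by
  by_contra hcon
  push Not at hcon
  set R := 64 * (L + 1) ^ 2 with hR
  have hsub : Nat.primesLE R ⊆ N.primeFactors := by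
    intro p hp
    have hpp := Nat.prime_of_mem_primesLE hp
    have hle : p ≤ R := by
      rw [Nat.mem_primesLE] at hp
      exact hp.1
    exact Nat.mem_primeFactors.2 ⟨hpp, hcon p hpp hle, hN⟩
  have hcard : (Nat.primesLE R).card ≤ L := by
    refine (Finset.card_le_card hsub).trans ?_
    have h1 : 2 ^ N.primeFactors.card ≤ 2 ^ L := by
      calc 2 ^ N.primeFactors.card = ∏ p ∈ N.primeFactors, 2 := by simp
        _ ≤ ∏ p ∈ N.primeFactors, p := by
          apply Finset.prod_le_prod'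
          intro p hp
          exact (Nat.prime_of_mem_primeFactors hp).two_le
        _ ≤ N := Nat.le_of_dvd (Nat.pos_of_ne_zero hN) (Nat.prod_primeFactors_dvd N)
        _ ≤ 2 ^ L := hL
    exact (Nat.pow_le_pow_iff_right (by norm_num)).1 h1
  have hlcm : Nat.lcmUpto R ≤ R ^ L := by
    rw [Nat.lcmUpto_eq_prod_pow_log]
    calc ∏ p ∈ Nat.primesLE R, p ^ p.log R ≤ ∏ p ∈ Nat.primesLE R, R := by
          apply Finset.prod_le_prod'
          intro p hp
          apply Nat.pow_log_le_self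
          rw [hR]
          positivity
      _ = R ^ (Nat.primesLE R).card := by simp
      _ ≤ R ^ L := Nat.pow_le_pow_right (by rw [hR]; positivity) hcard
  have h2 := Chebyshev.two_pow_le_mul_lcmUpto R
  have h3 : (R + 1) * Nat.lcmUpto R ≤ (R + 1) ^ (L + 1) := by
    calc (R + 1) * Nat.lcmUpto R ≤ (R + 1) * R ^ L := Nat.mul_le_mul_left _ hlcm
      _ ≤ (R + 1) * (R + 1) ^ L := Nat.mul_le_mul_left _ (Nat.pow_le_pow_left (by omega) _)
      _ = (R + 1) ^ (L + 1) := by ring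
  have h4 : R + 1 ≤ 2 ^ (16 * (L + 1)) := by
    have h5 : 8 * (L + 1) + 1 ≤ 2 ^ (8 * (L + 1)) := Nat.lt_two_pow_self
    calc R + 1 ≤ (8 * (L + 1) + 1) ^ 2 := by rw [hR]; nlinarith
      _ ≤ (2 ^ (8 * (L + 1))) ^ 2 := Nat.pow_le_pow_left h5 2
      _ = 2 ^ (16 * (L + 1)) := by rw [← pow_mul]; ring_nf
  have h6 : (R + 1) ^ (L + 1) ≤ 2 ^ (16 * (L + 1) * (L + 1)) := by
    calc (R + 1) ^ (L + 1) ≤ (2 ^ (16 * (L + 1))) ^ (L + 1) := Nat.pow_le_pow_left h4 _
      _ = 2 ^ (16 * (L + 1) * (L + 1)) := by rw [← pow_mul]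
  have h7 : 2 ^ R ≤ 2 ^ (16 * (L + 1) * (L + 1)) := h2.trans (h3.trans h6)
  have h8 : R ≤ 16 * (L + 1) * (L + 1) := (Nat.pow_le_pow_iff_right (by norm_num)).1 h7
  rw [hR] at h8
  nlinarith

/-- Uniqueness of base `B` expansions. -/
theorem digits_unique (B : ℕ) (n : ℕ) (d d' : ℕ → ℕ) (hd : ∀ k < n, d k < B)
    (hd' : ∀ k < n, d' k < B)
    (h : ∑ k ∈ Finset.range n, d k * B ^ k = ∑ k ∈ Finset.range n, d' k * B ^ k) :
    ∀ k < n, d k = d' k := by
  induction n generalizing d d' with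
  | zero => intro k hk; omega
  | succ n ih =>
    have hB : 0 < B := lt_of_le_of_lt (Nat.zero_le _) (hd 0 (by omega))
    rw [Finset.sum_range_succ', Finset.sum_range_succ'] at h
    have e : ∀ f : ℕ → ℕ, ∑ k ∈ Finset.range n, f (k + 1) * B ^ (k + 1) =
        B * ∑ k ∈ Finset.range n, f (k + 1) * B ^ k := by
      intro f
      rw [Finset.mul_sum]
      apply Finset.sum_congr rfl
      intro k _
      ring
    rw [e, e, pow_zero, mul_one, mul_one] at h
    have h0 : d 0 = d' 0 := by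
      have h1 := congrArg (· % B) h
      simp only [Nat.mul_add_mod] at h1
      rwa [Nat.mod_eq_of_lt (hd 0 (by omega)), Nat.mod_eq_of_lt (hd' 0 (by omega))] at h1
    rw [h0] at h
    have h2 : ∑ k ∈ Finset.range n, d (k + 1) * B ^ k = ∑ k ∈ Finset.range n, d' (k + 1) * B ^ k := by
      have := Nat.add_right_cancel h
      exact Nat.eq_of_mul_eq_mul_left hB this
    have h3 := ih (fun k => d (k + 1)) (fun k => d' (k + 1)) (fun k hk => hd (k + 1) (by omega))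
      (fun k hk => hd' (k + 1) (by omega)) h2
    intro k hk
    rcases k with _ | k
    · exact h0
    · exact h3 k (by omega)

theorem digits_lt (B : ℕ) (n : ℕ) (d : ℕ → ℕ) (hd : ∀ k < n, d k < B) :
    ∑ k ∈ Finset.range n, d k * B ^ k < B ^ n := by
  induction n with
  | zero => simp
  | succ n ih =>
    rw [Finset.sum_range_succ]
    have h1 := ih (fun k hk => hd k (by omega))
    have h2 := hd n (by omega)
    calc _ < B ^ n + d n * B ^ n := by omega
      _ = (d n + 1) * B ^ n := by ring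
      _ ≤ B * B ^ n := Nat.mul_le_mul_right _ h2
      _ = B ^ (n + 1) := by ring

/-- A nonempty sum of fewer than `r` terms `d * b ^ ρ` with digits `0 < |d| < b` and distinct
exponents `ρ < r` is not divisible by `1 + b + ... + b ^ (r - 1)`. -/
theorem signed_sum_not_dvd {ι : Type*} (b : ℕ) (hb : 2 ≤ b) (I : Finset ι) (hI : I.Nonempty)
    (d : ι → ℤ) (hd : ∀ i ∈ I, d i ≠ 0 ∧ |d i| < b) (ρ : ι → ℕ) (r : ℕ) (hρ : ∀ i ∈ I, ρ i < r)
    (hinj : ∀ i ∈ I, ∀ j ∈ I, ρ i = ρ j → i = j) (hcard : I.card < r) :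
    ¬ (∑ k ∈ Finset.range r, (b : ℤ) ^ k) ∣ ∑ i ∈ I, d i * b ^ (ρ i) := by
  classical
  intro hdvd
  have hr : 0 < r := by omega
  have hb' : (2 : ℤ) ≤ b := by exact_mod_cast hb
  -- a missing exponent
  obtain ⟨q, hq, hqI⟩ : ∃ q < r, ∀ i ∈ I, ρ i ≠ q := by
    by_contra hcon
    push Not at hcon
    have h1 : Finset.range r ⊆ I.image ρ := by
      intro q hq
      obtain ⟨i, hi, hiq⟩ := hcon q (Finset.mem_range.1 hq)
      exact Finset.mem_image.2 ⟨i, hi, hiq⟩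
    have h2 := Finset.card_le_card h1
    rw [Finset.card_range] at h2
    have h3 := Finset.card_image_le (s := I) (f := ρ)
    omega
  set M : ℤ := ∑ k ∈ Finset.range r, (b : ℤ) ^ k with hM
  -- rotate
  set ρ' : ι → ℕ := fun i => (ρ i + (r - 1 - q)) % r with hρ'
  have hρ'lt : ∀ i ∈ I, ρ' i < r - 1 := by
    intro i hi
    have h1 := hρ i hi
    have h2 := hqI i hi
    show (ρ i + (r - 1 - q)) % r < r - 1
    rcases Nat.lt_or_gt_of_ne h2 with h | h
    · rw [Nat.mod_eq_of_lt (by omega)]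
      omega
    · have : ρ i + (r - 1 - q) = (ρ i - q - 1) + r := by omega
      rw [this, Nat.add_mod_right, Nat.mod_eq_of_lt (by omega)]
      omega
  have hinj' : ∀ i ∈ I, ∀ j ∈ I, ρ' i = ρ' j → i = j := by
    intro i hi j hj h
    apply hinj i hi j hj
    have h1 : (ρ i + (r - 1 - q)) ≡ (ρ j + (r - 1 - q)) [MOD r] := h
    have h2 : ρ i ≡ ρ j [MOD r] := Nat.ModEq.add_right_cancel' _ h1
    exact Nat.ModEq.eq_of_lt_of_lt h2 (hρ i hi) (hρ j hj)
  have hMdvd : M ∣ (b : ℤ) ^ r - 1 := ⟨(b : ℤ) - 1, (geom_sum_mul (b : ℤ) r).symm⟩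
  have hpow : ∀ E : ℕ, M ∣ (b : ℤ) ^ E - b ^ (E % r) := by
    intro E
    refine hMdvd.trans ?_
    have h1 : (b : ℤ) ^ E = (b ^ r) ^ (E / r) * b ^ (E % r) := by
      rw [← pow_mul, ← pow_add, Nat.div_add_mod]
    have h2 : (b : ℤ) ^ E - b ^ (E % r) = ((b ^ r) ^ (E / r) - 1 ^ (E / r)) * b ^ (E % r) := by
      rw [h1, one_pow]
      ring
    rw [h2]
    exact (sub_dvd_pow_sub_pow _ _ _).mul_right _
  have hdvd' : M ∣ ∑ i ∈ I, d i * (b : ℤ) ^ (ρ' i) := by
    have h1 : M ∣ (b : ℤ) ^ (r - 1 - q) * ∑ i ∈ I, d i * (b : ℤ) ^ (ρ i) := hdvd.mul_left _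
    have h2 : M ∣ (b : ℤ) ^ (r - 1 - q) * ∑ i ∈ I, d i * (b : ℤ) ^ (ρ i) -
        ∑ i ∈ I, d i * (b : ℤ) ^ (ρ' i) := by
      rw [Finset.mul_sum, ← Finset.sum_sub_distrib]
      apply Finset.dvd_sum
      intro i _
      have h3 : (b : ℤ) ^ (r - 1 - q) * (d i * (b : ℤ) ^ (ρ i)) - d i * (b : ℤ) ^ (ρ' i) =
          d i * ((b : ℤ) ^ (ρ i + (r - 1 - q)) - b ^ ((ρ i + (r - 1 - q)) % r)) := by
        rw [pow_add]
        ring
      rw [h3]
      exact (hpow _).mul_left _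
    have h4 := dvd_sub h1 h2
    rwa [sub_sub_cancel] at h4
  -- absolute value bound
  have habs : |∑ i ∈ I, d i * (b : ℤ) ^ (ρ' i)| < M := by
    have h1 : |∑ i ∈ I, d i * (b : ℤ) ^ (ρ' i)| ≤ ∑ i ∈ I, ((b : ℤ) - 1) * b ^ (ρ' i) := by
      refine (Finset.abs_sum_le_sum_abs _ _).trans ?_
      apply Finset.sum_le_sum
      intro i hi
      rw [abs_mul, abs_of_nonneg (by positivity : (0 : ℤ) ≤ (b : ℤ) ^ (ρ' i))]
      apply mul_le_mul_of_nonneg_right _ (by positivity)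
      have := (hd i hi).2
      omega
    have h2 : ∑ i ∈ I, ((b : ℤ) - 1) * b ^ (ρ' i) = ((b : ℤ) - 1) * ∑ k ∈ I.image ρ', (b : ℤ) ^ k := by
      rw [Finset.mul_sum, Finset.sum_image]
      intro i hi j hj hij
      exact hinj' i hi j hj hij
    have h3 : I.image ρ' ⊆ Finset.range (r - 1) := by
      intro k hk
      obtain ⟨i, hi, rfl⟩ := Finset.mem_image.1 hk
      exact Finset.mem_range.2 (hρ'lt i hi)
    have h5 : ∑ k ∈ I.image ρ', (b : ℤ) ^ k ≤ ∑ k ∈ Finset.range (r - 1), (b : ℤ) ^ k :=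
      Finset.sum_le_sum_of_subset_of_nonneg h3 (fun j _ _ => by positivity)
    have h6 := mul_geom_sum (b : ℤ) (r - 1)
    have h7 : (b : ℤ) ^ (r - 1) ≤ M := by
      rw [hM]
      apply Finset.single_le_sum (f := fun k => (b : ℤ) ^ k) (fun k _ => by positivity)
      exact Finset.mem_range.2 (by omega)
    have h8 : ((b : ℤ) - 1) * ∑ k ∈ I.image ρ', (b : ℤ) ^ k ≤
        ((b : ℤ) - 1) * ∑ k ∈ Finset.range (r - 1), (b : ℤ) ^ k :=
      mul_le_mul_of_nonneg_left h5 (by omega)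
    linarith
  -- non-vanishing: look at the least exponent
  have hne : ∑ i ∈ I, d i * (b : ℤ) ^ (ρ' i) ≠ 0 := by
    obtain ⟨i0, hi0, hmin⟩ := Finset.exists_min_image I ρ' hI
    intro h0
    have h1 : ∑ i ∈ I, d i * (b : ℤ) ^ (ρ' i) = d i0 * (b : ℤ) ^ (ρ' i0) +
        ∑ i ∈ I.erase i0, d i * (b : ℤ) ^ (ρ' i) := by
      rw [Finset.add_sum_erase I (fun i => d i * (b : ℤ) ^ (ρ' i)) hi0]
    have h2 : (b : ℤ) ^ (ρ' i0 + 1) ∣ ∑ i ∈ I.erase i0, d i * (b : ℤ) ^ (ρ' i) := by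
      apply Finset.dvd_sum
      intro i hi
      have hii : i ≠ i0 := Finset.ne_of_mem_erase hi
      have hiI := Finset.mem_of_mem_erase hi
      have h3 : ρ' i0 < ρ' i := by
        rcases (hmin i hiI).lt_or_eq with h | h
        · exact h
        · exact absurd (hinj' i0 hi0 i hiI h).symm hii
      exact Dvd.dvd.mul_left (pow_dvd_pow _ h3) _
    rw [h1] at h0
    have h4 : (b : ℤ) ^ (ρ' i0 + 1) ∣ d i0 * (b : ℤ) ^ (ρ' i0) := by
      have h5 : d i0 * (b : ℤ) ^ (ρ' i0) = -∑ i ∈ I.erase i0, d i * (b : ℤ) ^ (ρ' i) := by linarith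
      rw [h5]
      exact h2.neg_right
    have h6 : (b : ℤ) ∣ d i0 := by
      rw [pow_succ, mul_comm] at h4
      have h7 : (b : ℤ) ^ (ρ' i0) ≠ 0 := by positivity
      exact (mul_dvd_mul_iff_right h7).1 h4
    have h8 := hd i0 hi0
    exact h8.1 (Int.eq_zero_of_abs_lt_dvd h6 h8.2)
  exact hne (Int.eq_zero_of_abs_lt_dvd hdvd' habs)

end Pool.Agent.Helper78_ACIT
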