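import Mathlib
import Pool.Agent.Helper78_ACIT.Circuit

set_option autoImplicit false

/-!
Digit-sparse polynomials and binomials, and the moduli of the test.
-/

namespace Pool.Agent.Helper78_ACIT

open MvPolynomial

/-- The pair `t = (e, α)` is admissible: the exponent `e` and all exponents of `x ^ α` are
below `2 ^ S`, and only the variables `x_j` with `j < v` occur in `x ^ α`. -/
def Adm (S v : ℕ) (t : ℕ × (ℕ →₀ ℕ)) : Prop :=
  t.1 < 2 ^ S ∧ (∀ j, t.2 j < 2 ^ S) ∧ ∀ j, v ≤ j → t.2 j = 0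

/-- The polynomial `d * b ^ e * x ^ α`, for `t = (e, α)`. -/
noncomputable def term (b : ℕ) (d : ℤ) (t : ℕ × (ℕ →₀ ℕ)) : MvPolynomial ℕ ℤ :=
  monomial t.2 (d * b ^ t.1)

/-- `h` is a sum of at most `W` terms `d * b ^ e * x ^ α` with `0 < |d| < b` and pairwise distinct
admissible `(e, α)`: the signed base `b` expansions of all coefficients of `h` together have at most
`W` nonzero digits. -/
def DigitSparse (b W S v : ℕ) (h : MvPolynomial ℕ ℤ) : Prop :=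
  ∃ (I : Finset (ℕ × (ℕ →₀ ℕ))) (d : ℕ × (ℕ →₀ ℕ) → ℤ), I.card ≤ W ∧
    (∀ t ∈ I, (d t ≠ 0 ∧ |d t| < b) ∧ Adm S v t) ∧ h = ∑ t ∈ I, term b (d t) t

/-- `β` is a sum of two terms `± b ^ e * x ^ α` with distinct admissible `(e, α)`. -/
def IsBinomial (b S v : ℕ) (β : MvPolynomial ℕ ℤ) : Prop :=
  ∃ (σ₁ σ₂ : ℤ) (t₁ t₂ : ℕ × (ℕ →₀ ℕ)), (σ₁ = 1 ∨ σ₁ = -1) ∧ (σ₂ = 1 ∨ σ₂ = -1) ∧
    t₁ ≠ t₂ ∧ Adm S v t₁ ∧ Adm S v t₂ ∧ β = term b σ₁ t₁ + term b σ₂ t₂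

/-- The number of moduli of the test; a polynomial in `b`, `W`, `T`, `S` and `v`. -/
def bound (b W T S v : ℕ) : ℕ :=
  64 * ((W + b) ^ 2 + W ^ 2 * (S * (v + 1)) + T * (S * (v + 1)) + 2) ^ 2

/-- The modulus `1 + b + b ^ 2 + ... + b ^ (r - 1)`, a number of at most `r * b` bits (it is
`2 ^ r - 1` for `b = 2`). -/
def repunit (b r : ℕ) : ℕ := ∑ k ∈ Finset.range r, b ^ k

end Pool.Agent.Helper78_ACIT
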