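import Mathlib
import Pool.Agent.Helper78_ACIT.Circuit
import Pool.Agent.Helper78_ACIT.Defs
import Pool.Agent.Helper78_ACIT.Prime

set_option autoImplicit false

/-!
Deterministic zero test for circuits of unbounded degree and coefficient size whose polynomial
divides a digit-sparse polynomial times powers of binomials.
-/

namespace Pool.Agent.Helper78_ACIT

open MvPolynomial

/-- The exponent of `b` in the value of the term at the test point. -/
def expo (S v : ℕ) (t : ℕ × (ℕ →₀ ℕ)) : ℕ := t.1 + ∑ j ∈ Finset.range v, t.2 j * 2 ^ (S * (j + 1))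

/-- The test point. -/
def pt (b S : ℕ) (j : ℕ) : ℤ := (b : ℤ) ^ (2 ^ (S * (j + 1)))

/-- The digits of `expo`. -/
def dig (t : ℕ × (ℕ →₀ ℕ)) : ℕ → ℕ
  | 0 => t.1
  | k + 1 => t.2 k

theorem expo_eq (S v : ℕ) (t : ℕ × (ℕ →₀ ℕ)) :
    expo S v t = ∑ k ∈ Finset.range (v + 1), dig t k * (2 ^ S) ^ k := by
  rw [Finset.sum_range_succ']
  simp only [dig, pow_zero, mul_one]
  rw [add_comm, expo]
  congr 1
  apply Finset.sum_congr rfl
  intro j _
  rw [← pow_mul]

theorem expo_inj (S v : ℕ) (t t' : ℕ × (ℕ →₀ ℕ)) (ht : Adm S v t) (ht' : Adm S v t')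
    (h : expo S v t = expo S v t') : t = t' := by
  rw [expo_eq, expo_eq] at h
  have hd : ∀ (t : ℕ × (ℕ →₀ ℕ)), Adm S v t → ∀ k < v + 1, dig t k < 2 ^ S := by
    intro t ht k _
    cases k with
    | zero => exact ht.1
    | succ k => exact ht.2.1 k
  have h1 := digits_unique _ _ _ _ (hd t ht) (hd t' ht') h
  apply Prod.ext
  · exact h1 0 (by omega)
  · ext j
    by_cases hj : j < v
    · exact h1 (j + 1) (by omega)
    · rw [ht.2.2 j (by omega), ht'.2.2 j (by omega)]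

theorem expo_lt (S v : ℕ) (t : ℕ × (ℕ →₀ ℕ)) (ht : Adm S v t) : expo S v t < 2 ^ (S * (v + 1)) := by
  rw [expo_eq, pow_mul]
  apply digits_lt
  intro k _
  cases k with
  | zero => exact ht.1
  | succ k => exact ht.2.1 k

theorem eval_term (b S v : ℕ) (d : ℤ) (t : ℕ × (ℕ →₀ ℕ)) (ht : Adm S v t) :
    eval (pt b S) (term b d t) = d * (b : ℤ) ^ (expo S v t) := by
  unfold term
  rw [eval_monomial, Finsupp.prod_of_support_subset (s := Finset.range v)]
  · have h1 : ∀ j ∈ Finset.range v, pt b S j ^ (t.2 j) = (b : ℤ) ^ (t.2 j * 2 ^ (S * (j + 1))) := by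
      intro j _
      unfold pt
      rw [← pow_mul, mul_comm]
    rw [Finset.prod_congr rfl h1, Finset.prod_pow_eq_pow_sum, mul_assoc, ← pow_add]
    rfl
  · intro j hj
    rw [Finset.mem_range]
    by_contra h
    rw [Finsupp.mem_support_iff] at hj
    exact hj (ht.2.2 j (by omega))
  · intro j _
    exact pow_zero _

/-- Distance of two natural numbers, replaced by one if they are equal. -/
def ab (a b : ℕ) : ℕ := if a = b then 1 else (a - b) + (b - a)

theorem ab_ne_zero (a b : ℕ) : ab a b ≠ 0 := by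
  unfold ab
  split_ifs with h
  · omega
  · omega

theorem ab_le (a b K : ℕ) (ha : a < 2 ^ K) (hb : b < 2 ^ K) : ab a b ≤ 2 ^ K := by
  unfold ab
  split_ifs with h
  · exact Nat.one_le_two_pow
  · omega

theorem mod_dvd_ab (r a b : ℕ) (h : a % r = b % r) (hne : a ≠ b) : r ∣ ab a b := by
  unfold ab
  rw [if_neg hne]
  rcases Nat.lt_or_gt_of_ne hne with hlt | hlt
  · have : a - b = 0 := by omega
    rw [this, zero_add]
    exact (Nat.modEq_iff_dvd' hlt.le).1 h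
  · have : b - a = 0 := by omega
    rw [this, add_zero]
    exact (Nat.modEq_iff_dvd' hlt.le).1 h.symm

theorem repunit_cast (b r : ℕ) : ((repunit b r : ℕ) : ℤ) = ∑ k ∈ Finset.range r, (b : ℤ) ^ k := by
  unfold repunit
  push_cast
  rfl

theorem pow_mod_dvd (b r E : ℕ) : ((repunit b r : ℕ) : ℤ) ∣ (b : ℤ) ^ E - b ^ (E % r) := by
  have h0 : ((repunit b r : ℕ) : ℤ) ∣ (b : ℤ) ^ r - 1 := by
    rw [repunit_cast]
    exact ⟨(b : ℤ) - 1, (geom_sum_mul (b : ℤ) r).symm⟩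
  refine h0.trans ?_
  have h1 : (b : ℤ) ^ E = (b ^ r) ^ (E / r) * b ^ (E % r) := by
    rw [← pow_mul, ← pow_add, Nat.div_add_mod]
  have h2 : (b : ℤ) ^ E - b ^ (E % r) = ((b ^ r) ^ (E / r) - 1 ^ (E / r)) * b ^ (E % r) := by
    rw [h1, one_pow]
    ring
  rw [h2]
  exact (sub_dvd_pow_sub_pow _ _ _).mul_right _

theorem coprime_base_pow (b r k : ℕ) (hr : 0 < r) :
    IsCoprime ((b : ℤ) ^ k) ((repunit b r : ℕ) : ℤ) := by
  apply IsCoprime.pow_left
  obtain ⟨n, rfl⟩ : ∃ n, r = n + 1 := ⟨r - 1, by omega⟩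
  rw [repunit_cast, Finset.sum_range_succ']
  refine ⟨-∑ k ∈ Finset.range n, (b : ℤ) ^ k, 1, ?_⟩
  have : ∑ k ∈ Finset.range n, (b : ℤ) ^ (k + 1) = b * ∑ k ∈ Finset.range n, (b : ℤ) ^ k := by
    rw [Finset.mul_sum]
    apply Finset.sum_congr rfl
    intro k _
    ring
  rw [this]
  ring

theorem coprime_pow_sub_one (b r n : ℕ) (hb : 2 ≤ b) (h : Nat.gcd n r = 1)
    (hbr : Nat.gcd (b - 1) r = 1) :
    IsCoprime ((b : ℤ) ^ n - 1) ((repunit b r : ℕ) : ℤ) := by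
  have h1 := Nat.pow_sub_one_gcd_pow_sub_one b n r
  rw [h, pow_one] at h1
  have h2 : Nat.Coprime (b ^ n - 1) (repunit b r) := by
    apply Nat.Coprime.symm
    rw [Nat.coprime_iff_gcd_eq_one]
    by_contra hne
    obtain ⟨p, hp, hpd⟩ := Nat.exists_prime_and_dvd hne
    have hp1 : p ∣ repunit b r := hpd.trans (Nat.gcd_dvd_left _ _)
    have hp2 : p ∣ b ^ n - 1 := hpd.trans (Nat.gcd_dvd_right _ _)
    have hp3 : p ∣ b ^ r - 1 := by
      have h3 : (repunit b r) * (b - 1) = b ^ r - 1 := by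
        unfold repunit
        have h4 := geom_sum_mul (b : ℤ) r
        zify [Nat.one_le_pow r b (by omega), (by omega : 1 ≤ b)]
        exact h4
      rw [← h3]
      exact hp1.mul_right _
    have hp4 : p ∣ b - 1 := by
      rw [← h1]
      exact Nat.dvd_gcd hp2 hp3
    -- then the repunit is `r` modulo `p`
    have hp5 : p ∣ r := by
      have h5 : (repunit b r : ℕ) ≡ r [MOD p] := by
        unfold repunit
        have h6 : b ≡ 1 [MOD p] := ((Nat.modEq_iff_dvd' (by omega)).2 hp4).symm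
        calc ∑ k ∈ Finset.range r, b ^ k ≡ ∑ k ∈ Finset.range r, 1 [MOD p] := by
              apply Nat.ModEq.sum
              intro k _
              have := h6.pow k
              rwa [one_pow] at this
          _ = r := by simp
      exact (h5.dvd_iff dvd_rfl).1 hp1
    have hp6 : p ∣ 1 := by
      rw [← hbr]
      exact Nat.dvd_gcd hp4 hp5
    exact hp.one_lt.ne' (Nat.dvd_one.1 hp6)
  have h3 := Nat.isCoprime_iff_coprime.2 h2
  push_cast [Nat.one_le_pow n b (by omega)] at h3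
  exact h3

theorem coprime_binomial (b S v r : ℕ) (hb : 2 ≤ b) (β : MvPolynomial ℕ ℤ) (σ₁ σ₂ : ℤ)
    (t₁ t₂ : ℕ × (ℕ →₀ ℕ)) (h1 : σ₁ = 1 ∨ σ₁ = -1) (h2 : σ₂ = 1 ∨ σ₂ = -1) (hne : t₁ ≠ t₂)
    (ha1 : Adm S v t₁) (ha2 : Adm S v t₂) (hβ : β = term b σ₁ t₁ + term b σ₂ t₂)
    (hr : r.Prime) (hr2 : r ≠ 2) (hrb : b < r)
    (hr3 : ¬ r ∣ ab (expo S v t₁) (expo S v t₂)) :
    IsCoprime (eval (pt b S) β) ((repunit b r : ℕ) : ℤ) := by
  rw [hβ, map_add, eval_term b S v σ₁ t₁ ha1, eval_term b S v σ₂ t₂ ha2]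
  have hE : expo S v t₁ ≠ expo S v t₂ := fun h => hne (expo_inj S v t₁ t₂ ha1 ha2 h)
  set E₁ := expo S v t₁ with hE₁
  set E₂ := expo S v t₂ with hE₂
  have hbr : Nat.gcd (b - 1) r = 1 := by
    rw [Nat.gcd_comm]
    change Nat.Coprime r (b - 1)
    rw [hr.coprime_iff_not_dvd]
    intro h
    have := Nat.le_of_dvd (by omega) h
    omega
  -- the general fact for `σ + σ' b ^ D`
  have key : ∀ (σ σ' : ℤ) (D : ℕ), (σ = 1 ∨ σ = -1) → (σ' = 1 ∨ σ' = -1) → ¬ r ∣ D →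
      IsCoprime (σ + σ' * (b : ℤ) ^ D) ((repunit b r : ℕ) : ℤ) := by
    intro σ σ' D hσ hσ' hD
    have h3 : Nat.gcd (2 * D) r = 1 := by
      rw [Nat.gcd_comm]
      change Nat.Coprime r (2 * D)
      rw [hr.coprime_iff_not_dvd]
      intro h
      rcases (Nat.Prime.dvd_mul hr).1 h with h | h
      · exact hr2 ((Nat.prime_dvd_prime_iff_eq hr Nat.prime_two).1 h)
      · exact hD h
    have h4 := coprime_pow_sub_one b r (2 * D) hb h3 hbr
    apply h4.of_isCoprime_of_dvd_left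
    refine ⟨σ' * (b : ℤ) ^ D - σ, ?_⟩
    rcases hσ with rfl | rfl <;> rcases hσ' with rfl | rfl <;> ring
  rcases Nat.lt_or_gt_of_ne hE with h | h
  · have h3 : ab E₁ E₂ = E₂ - E₁ := by
      unfold ab
      rw [if_neg (by omega)]
      omega
    rw [h3] at hr3
    have h4 : σ₁ * (b : ℤ) ^ E₁ + σ₂ * (b : ℤ) ^ E₂ =
        (b : ℤ) ^ E₁ * (σ₁ + σ₂ * (b : ℤ) ^ (E₂ - E₁)) := by
      have : (b : ℤ) ^ E₂ = (b : ℤ) ^ E₁ * (b : ℤ) ^ (E₂ - E₁) := by
        rw [← pow_add]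
        congr 1
        omega
      rw [this]
      ring
    rw [h4]
    exact (coprime_base_pow b r _ hr.pos).mul_left (key _ _ _ h1 h2 hr3)
  · have h3 : ab E₁ E₂ = E₁ - E₂ := by
      unfold ab
      rw [if_neg (by omega)]
      omega
    rw [h3] at hr3
    have h4 : σ₁ * (b : ℤ) ^ E₁ + σ₂ * (b : ℤ) ^ E₂ =
        (b : ℤ) ^ E₂ * (σ₂ + σ₁ * (b : ℤ) ^ (E₁ - E₂)) := by
      have : (b : ℤ) ^ E₁ = (b : ℤ) ^ E₂ * (b : ℤ) ^ (E₁ - E₂) := by
        rw [← pow_add]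
        congr 1
        omega
      rw [this]
      ring
    rw [h4]
    exact (coprime_base_pow b r _ hr.pos).mul_left (key _ _ _ h2 h1 hr3)

theorem sparse_not_dvd (b W S v r : ℕ) (hb : 2 ≤ b) (I : Finset (ℕ × (ℕ →₀ ℕ)))
    (d : ℕ × (ℕ →₀ ℕ) → ℤ) (hI : I.Nonempty) (hW : I.card ≤ W)
    (hd : ∀ t ∈ I, (d t ≠ 0 ∧ |d t| < b) ∧ Adm S v t) (hr : r.Prime) (hWr : W < r)
    (hr3 : ∀ t ∈ I, ∀ t' ∈ I, ¬ r ∣ ab (expo S v t) (expo S v t')) :
    ¬ ((repunit b r : ℕ) : ℤ) ∣ eval (pt b S) (∑ t ∈ I, term b (d t) t) := by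
  intro hdvd
  have h1 : eval (pt b S) (∑ t ∈ I, term b (d t) t) = ∑ t ∈ I, d t * (b : ℤ) ^ (expo S v t) := by
    rw [map_sum]
    exact Finset.sum_congr rfl (fun t ht => eval_term b S v (d t) t (hd t ht).2)
  rw [h1] at hdvd
  have h2 : ((repunit b r : ℕ) : ℤ) ∣ ∑ t ∈ I, d t * (b : ℤ) ^ (expo S v t) -
      ∑ t ∈ I, d t * (b : ℤ) ^ (expo S v t % r) := by
    rw [← Finset.sum_sub_distrib]
    apply Finset.dvd_sum
    intro t _
    rw [← mul_sub]
    exact (pow_mod_dvd b r _).mul_left _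
  have h3 : ((repunit b r : ℕ) : ℤ) ∣ ∑ t ∈ I, d t * (b : ℤ) ^ (expo S v t % r) := by
    have := dvd_sub hdvd h2
    rwa [sub_sub_cancel] at this
  rw [repunit_cast] at h3
  refine signed_sum_not_dvd b hb I hI d (fun t ht => (hd t ht).1) (fun t => expo S v t % r) r
    (fun t _ => Nat.mod_lt _ hr.pos) ?_ (by omega) h3
  intro t ht t' ht' h
  apply expo_inj S v t t' (hd t ht).2 (hd t' ht').2
  by_contra hne
  exact hr3 t ht t' ht' (mod_dvd_ab r _ _ h hne)

/-- The prime used for the test. -/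
theorem exists_good_prime (b W T S v : ℕ) (I : Finset (ℕ × (ℕ →₀ ℕ))) (hW : I.card ≤ W)
    (hI : ∀ t ∈ I, Adm S v t) (t₁ t₂ : Fin T → ℕ × (ℕ →₀ ℕ)) (h₁ : ∀ i, Adm S v (t₁ i))
    (h₂ : ∀ i, Adm S v (t₂ i)) :
    ∃ r, r.Prime ∧ r ≤ bound b W T S v ∧ r ≠ 2 ∧ W + b < r ∧
      (∀ t ∈ I, ∀ t' ∈ I, ¬ r ∣ ab (expo S v t) (expo S v t')) ∧
      ∀ i, ¬ r ∣ ab (expo S v (t₁ i)) (expo S v (t₂ i)) := by
  set K := S * (v + 1) with hK
  set P₁ := ∏ p ∈ I ×ˢ I, ab (expo S v p.1) (expo S v p.2) with hP₁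
  set P₂ := ∏ i : Fin T, ab (expo S v (t₁ i)) (expo S v (t₂ i)) with hP₂
  have hP₁0 : P₁ ≠ 0 := Finset.prod_ne_zero_iff.2 (fun _ _ => ab_ne_zero _ _)
  have hP₂0 : P₂ ≠ 0 := Finset.prod_ne_zero_iff.2 (fun _ _ => ab_ne_zero _ _)
  have hP₁le : P₁ ≤ 2 ^ (K * (W * W)) := by
    calc P₁ ≤ ∏ p ∈ I ×ˢ I, 2 ^ K := by
          apply Finset.prod_le_prod'
          intro p hp
          rw [Finset.mem_product] at hp
          exact ab_le _ _ _ (expo_lt S v _ (hI _ hp.1)) (expo_lt S v _ (hI _ hp.2))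
      _ = (2 ^ K) ^ (I.card * I.card) := by rw [Finset.prod_const, Finset.card_product]
      _ ≤ (2 ^ K) ^ (W * W) :=
          Nat.pow_le_pow_right (by positivity) (Nat.mul_le_mul hW hW)
      _ = 2 ^ (K * (W * W)) := by rw [← pow_mul]
  have hP₂le : P₂ ≤ 2 ^ (K * T) := by
    calc P₂ ≤ ∏ i : Fin T, 2 ^ K := by
          apply Finset.prod_le_prod'
          intro i _
          exact ab_le _ _ _ (expo_lt S v _ (h₁ i)) (expo_lt S v _ (h₂ i))
      _ = 2 ^ (K * T) := by rw [Finset.prod_const, Finset.card_univ, Fintype.card_fin, ← pow_mul]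
  have hfac : (W + b).factorial ≤ 2 ^ ((W + b) ^ 2) := by
    calc (W + b).factorial ≤ (W + b) ^ (W + b) := Nat.factorial_le_pow _
      _ ≤ (2 ^ (W + b)) ^ (W + b) := Nat.pow_le_pow_left (Nat.lt_two_pow_self).le _
      _ = 2 ^ ((W + b) ^ 2) := by rw [← pow_mul]; ring_nf
  have hN0 : 2 * (W + b).factorial * P₁ * P₂ ≠ 0 :=
    mul_ne_zero (mul_ne_zero (mul_ne_zero two_ne_zero (Nat.factorial_ne_zero _)) hP₁0) hP₂0
  have hNle : 2 * (W + b).factorial * P₁ * P₂ ≤ 2 ^ ((W + b) ^ 2 + W ^ 2 * K + T * K + 1) := by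
    calc 2 * (W + b).factorial * P₁ * P₂
        ≤ 2 * 2 ^ ((W + b) ^ 2) * 2 ^ (K * (W * W)) * 2 ^ (K * T) :=
          Nat.mul_le_mul (Nat.mul_le_mul (Nat.mul_le_mul_left _ hfac) hP₁le) hP₂le
      _ = 2 ^ ((W + b) ^ 2 + W ^ 2 * K + T * K + 1) := by
          rw [pow_succ, pow_add, pow_add]
          have e1 : K * (W * W) = W ^ 2 * K := by ring
          have e2 : K * T = T * K := by ring
          rw [e1, e2]
          ring
  obtain ⟨r, hr, hrle, hrN⟩ := exists_prime_not_dvd _ _ hN0 hNle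
  have hr2 : ¬ r ∣ 2 := fun h => hrN (((h.mul_right _).mul_right _).mul_right _)
  have hrf : ¬ r ∣ (W + b).factorial := fun h => hrN (((h.mul_left _).mul_right _).mul_right _)
  have hr1 : ¬ r ∣ P₁ := fun h => hrN ((h.mul_left _).mul_right _)
  have hr2' : ¬ r ∣ P₂ := fun h => hrN (h.mul_left _)
  refine ⟨r, hr, hrle, ?_, ?_, ?_, ?_⟩
  · rintro rfl
    exact hr2 dvd_rfl
  · by_contra h
    exact hrf ((hr.dvd_factorial).2 (by omega))
  · intro t ht t' ht' h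
    apply hr1
    exact h.trans (Finset.dvd_prod_of_mem (fun p : (ℕ × (ℕ →₀ ℕ)) × (ℕ × (ℕ →₀ ℕ)) =>
      ab (expo S v p.1) (expo S v p.2)) (Finset.mem_product.2 ⟨ht, ht'⟩ : (t, t') ∈ I ×ˢ I))
  · intro i h
    apply hr2'
    exact h.trans (Finset.dvd_prod_of_mem (fun i : Fin T =>
      ab (expo S v (t₁ i)) (expo S v (t₂ i))) (Finset.mem_univ i))

/-- The deterministic test. -/
theorem main_test (b W T S v : ℕ) (hb : 2 ≤ b) (C : List Gate) (hC : WellFormed C)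
    (hpromise : poly C = 0 ∨ ∃ (h : MvPolynomial ℕ ℤ) (β : Fin T → MvPolynomial ℕ ℤ)
      (m : Fin T → ℕ), h ≠ 0 ∧ DigitSparse b W S v h ∧ (∀ i, IsBinomial b S v (β i)) ∧
        poly C ∣ h * ∏ i, β i ^ m i) :
    C ∈ ACIT ↔ ∀ r, 1 ≤ r → r ≤ bound b W T S v →
      out (fun j => (b : ZMod (repunit b r)) ^ (2 ^ (S * (j + 1)))) C = 0 := by
  constructor
  · rintro ⟨_, h0⟩ r _ _
    rw [out_eq_eval, h0]
    simp
  · intro htest
    rcases hpromise with h0 | ⟨h, β, m, hne, ⟨I, d, hIW, hId, hI⟩, hβ, hdvd⟩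
    · exact ⟨hC, h0⟩
    exfalso
    choose σ₁ σ₂ t₁ t₂ hσ₁ hσ₂ htt ha₁ ha₂ hβe using hβ
    obtain ⟨r, hr, hrle, hr2, hWr, hrI, hrβ⟩ := exists_good_prime b W T S v I hIW
      (fun t ht => (hId t ht).2) t₁ t₂ ha₁ ha₂
    have hIne : I.Nonempty := by
      rw [Finset.nonempty_iff_ne_empty]
      rintro rfl
      apply hne
      rw [hI]
      simp
    -- the test gives divisibility
    have h1 : ((repunit b r : ℕ) : ℤ) ∣ out (pt b S) C := by
      have h2 := htest r hr.one_lt.le hrle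
      have h3 : out (fun j => (b : ZMod (repunit b r)) ^ (2 ^ (S * (j + 1)))) C =
          ((out (pt b S) C : ℤ) : ZMod (repunit b r)) := by
        have := out_map (Int.castRingHom (ZMod (repunit b r))) (pt b S) C
        rw [eq_intCast] at this
        rw [this]
        congr 1
        funext j
        simp [pt]
      rw [h3, ZMod.intCast_zmod_eq_zero_iff_dvd] at h2
      exact h2
    have h2 : out (pt b S) C = eval (pt b S) (poly C) := by
      rw [out_eq_eval]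
      rfl
    rw [h2] at h1
    have h3 : ((repunit b r : ℕ) : ℤ) ∣ eval (pt b S) h * ∏ i, eval (pt b S) (β i) ^ m i := by
      have h4 := map_dvd (eval (pt b S)) hdvd
      rw [map_mul, map_prod] at h4
      simp only [map_pow] at h4
      exact h1.trans h4
    have h5 : IsCoprime ((repunit b r : ℕ) : ℤ) (∏ i, eval (pt b S) (β i) ^ m i) := by
      apply IsCoprime.prod_right
      intro i _
      apply IsCoprime.pow_right
      exact (coprime_binomial b S v r hb (β i) (σ₁ i) (σ₂ i) (t₁ i) (t₂ i) (hσ₁ i) (hσ₂ i) (htt i)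
        (ha₁ i) (ha₂ i) (hβe i) hr hr2 (by omega) (hrβ i)).symm
    have h6 := h5.dvd_of_dvd_mul_right h3
    rw [hI] at h6
    exact sparse_not_dvd b W S v r hb I d hIne hIW hId hr (by omega) hrI h6

end Pool.Agent.Helper78_ACIT
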